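import Pool.Agent.H64.BHMain

/-!
The Brumfiel-Hilden property for all finitely generated groups which are normally generated
by one element (in particular for all knot groups).
-/

namespace Pool.Agent.Results.MP_db0b5c_gt.GeneralGroups

open Pool.Agent.H64.BH

/-- Let `π` be a finitely generated group that is the normal closure of a single element `m`,
and let `l` be an element of the commutator subgroup `[π, π]` that commutes with `m`.  Then in the
Brumfiel-Hilden algebra `H[π]` over `ℂ` the image of `l` lies in `H⁺[X^{±1}]`, the subalgebra
generated by `H⁺[π]` and the images of `m` and `m⁻¹`. -/
theorem result (π : Type*) [Group π] [Group.FG π] (m l : π)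
    (hm : Subgroup.normalClosure {m} = ⊤) (hl : l ∈ commutator π) (hml : m * l = l * m) :
    LongitudeProperty π m l :=
  longitudeProperty m l hm hl hml

end Pool.Agent.Results.MP_db0b5c_gt.GeneralGroups
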