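import Pool.Agent.H64.BHMain
import Pool.Agent.H64.Knot4

/-!
The Brumfiel-Hilden conjecture for all tame knots in the three-sphere.
-/

namespace Pool.Agent.Results.MP_db0b5c_gt.TameKnots

open Pool.Agent.H64 Pool.Agent.H64.BH

/-- A homeomorphism induces a surjection on fundamental groups. -/
lemma map_surjective {X Y : Type*} [TopologicalSpace X] [TopologicalSpace Y] (h : X ≃ₜ Y) (x : X) :
    Function.Surjective (FundamentalGroup.map (h : C(X, Y)) x) := by
  intro g
  obtain ⟨γ, rfl⟩ := VK.exists_rep_path g
  have e : x = h.symm (h x) := (h.symm_apply_apply x).symm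
  refine ⟨FundamentalGroup.fromPath (Path.Homotopic.Quotient.mk
    ((γ.map h.symm.continuous).cast e e)), ?_⟩
  have : ((γ.map h.symm.continuous).cast e e).map h.continuous = γ := by
    ext t
    simp
  conv_rhs => rw [← this]
  rfl

/-- The Brumfiel-Hilden conjecture.

`S3` is any space homeomorphic to the three-sphere (the unit sphere of `ℝ⁴`).
A tame knot `K` in `S3` is given with a closed tubular neighbourhood `tube : S¹ × D² → S3`: a
continuous injective map (so an embedding of the solid torus) that maps the open solid torus onto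
an open set; `K` is its core `tube (S¹ × {0})`. `torus` is the boundary torus
`(θ, z) ↦ tube (θ, z)`, `|z| = 1`, as a map into the complement of `K`, and the knot group is
`π = π₁(S3 \ K, torus (1, 1))`. The meridian is the class of `t ↦ tube (1, exp (2 π i t))`.
Let `l` be an element of the peripheral subgroup (the image of the fundamental group of the
boundary torus) which is null-homologous in the complement, i.e. lies in the commutator subgroup
of `π`; for instance the preferred longitude. Then the image `Y` of `l` in the algebra `H[π]` lies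
in the subalgebra `H⁺[X^{±1}]` generated by `H⁺[π]` and the images `X`, `X⁻¹` of the meridian and
its inverse. -/
theorem result
    (S3 : Type) [TopologicalSpace S3]
    (hS3 : Nonempty (S3 ≃ₜ Metric.sphere (0 : EuclideanSpace ℝ (Fin 4)) 1))
    (tube : Circle × Metric.closedBall (0 : ℂ) 1 → S3)
    (tube_continuous : Continuous tube) (tube_injective : Function.Injective tube)
    (tube_interior : IsOpen (tube '' {p | ‖(p.2 : ℂ)‖ < 1}))
    (K : Set S3) (hK : K = tube '' {p | (p.2 : ℂ) = 0})
    (torus : C(Circle × Circle, ↥(Kᶜ)))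
    (htorus : ∀ (θ z : Circle) (w : Metric.closedBall (0 : ℂ) 1), (w : ℂ) = z →
      (torus (θ, z) : S3) = tube (θ, w))
    (mu : Path ((1 : Circle), (1 : Circle)) (1, 1))
    (hmu : ∀ t, mu t = (1, Circle.exp (2 * Real.pi * t)))
    (l : FundamentalGroup ↥(Kᶜ) (torus (1, 1)))
    (hl : l ∈ (FundamentalGroup.map torus (1, 1)).range)
    (hl' : l ∈ commutator (FundamentalGroup ↥(Kᶜ) (torus (1, 1)))) :
    LongitudeProperty (FundamentalGroup ↥(Kᶜ) (torus (1, 1)))
      (FundamentalGroup.map torus (1, 1)
        (FundamentalGroup.fromPath (Path.Homotopic.Quotient.mk mu))) l := by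
  obtain ⟨e⟩ := hS3
  let T : TameKnot := ⟨e ∘ tube, e.continuous.comp tube_continuous,
    e.injective.comp tube_injective, by
      rw [Set.image_comp]; exact e.isOpenMap _ tube_interior⟩
  subst hK
  let h : T.Complement ≃ₜ ↥((tube '' {p | (p.2 : ℂ) = 0})ᶜ) :=
    e.symm.subtype (fun x => by
      change x ∉ T.core ↔ e.symm x ∉ tube '' {p | (p.2 : ℂ) = 0}
      refine not_congr ⟨?_, ?_⟩
      · rintro ⟨p, hp, rfl⟩
        exact ⟨p, hp, (e.symm_apply_apply _).symm⟩
      · rintro ⟨p, hp, hx⟩
        exact ⟨p, hp, by change e (tube p) = x; rw [hx, e.apply_symm_apply]⟩)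
  have ht : torus = (h : C(T.Complement, ↥((tube '' {p | (p.2 : ℂ) = 0})ᶜ))).comp T.torus := by
    ext1 p
    obtain ⟨θ, z⟩ := p
    refine Subtype.ext ((htorus θ z (TameKnot.circleToD2 z) rfl).trans ?_)
    exact (e.symm_apply_apply _).symm
  have hm : mu = TameKnot.meridianLoop := by
    ext1
    funext t
    exact hmu t
  subst ht hm
  let ψ := FundamentalGroup.map (h : C(T.Complement, ↥((tube '' {p | (p.2 : ℂ) = 0})ᶜ))) (T.torus (1, 1))
  have hψ : Function.Surjective ψ := map_surjective h _
  have h1' : Group.FG T.GroupI := T.group_fg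
  have h1 : Group.FG (FundamentalGroup ↥((tube '' {p | (p.2 : ℂ) = 0})ᶜ)
      (((h : C(T.Complement, ↥((tube '' {p | (p.2 : ℂ) = 0})ᶜ))).comp T.torus) (1, 1))) :=
    @Group.fg_of_surjective _ _ _ _ h1' ψ hψ
  have h2' : Subgroup.normalClosure {T.meridianI} = ⊤ := T.normalClosure_meridian
  have h2 : Subgroup.normalClosure {ψ T.meridianI} = ⊤ := by
    rw [← Set.image_singleton, ← Subgroup.map_normalClosure _ ψ hψ, h2', ← MonoidHom.range_eq_map,
      MonoidHom.range_eq_top.2 hψ]
  have h4 : (FundamentalGroup.map ((h : C(T.Complement, ↥((tube '' {p | (p.2 : ℂ) = 0})ᶜ))).comp T.torus) (1, 1)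
      (FundamentalGroup.fromPath (Path.Homotopic.Quotient.mk TameKnot.meridianLoop))) =
      ψ T.meridianI := rfl
  refine longitudeProperty _ l ?_ hl' ?_
  · rw [h4]; exact h2
  · obtain ⟨a, rfl⟩ := hl
    rw [← map_mul, ← map_mul, torus_comm]

end Pool.Agent.Results.MP_db0b5c_gt.TameKnots
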